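import Mathlib
import Pool.Agent.Work.MP_05d08f_al.Final

set_option autoImplicit false

/-!
# Multilinear polynomials of degree less than `4 ⌊n/3⌋`: all nonderogatory trace zero matrices
-/

namespace Pool.Agent.Results.MP_05d08f_al.CyclicSmallDegree

open Matrix

/-- `K` an infinite field, `f = ∑ c σ x_{σ 0} ⋯ x_{σ (m-1)}` a multilinear polynomial over `K` of
degree `m > 0`, `r` a natural number. Assume that `f ≠ 0` and `m < 4 r`, or that `f` is not an
identity of the block upper triangular matrices with two diagonal blocks of size `r`. Let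
`B ∈ M_n(K)` be either a trace zero matrix with a cyclic vector and `3 r ≤ n`, or a matrix similar
to one whose diagonal blocks, for some partition of the indices into classes of size at least `r`,
are all zero. Then `B` is a value of `f`. -/
theorem result (K : Type) [Field K] [Infinite K] (m : ℕ) (hm : 0 < m)
    (c : Equiv.Perm (Fin m) → K) (r n : ℕ)
    (hf : (c ≠ 0 ∧ m < 4 * r) ∨
      ∃ b : Fin m → Matrix (Fin r ⊕ Fin r) (Fin r ⊕ Fin r) K, (∀ j, (b j).toBlocks₂₁ = 0) ∧
        (∑ σ : Equiv.Perm (Fin m), c σ • (List.ofFn (fun k => b (σ k))).prod) ≠ 0)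
    (B : Matrix (Fin n) (Fin n) K)
    (hB : (3 * r ≤ n ∧ B.trace = 0 ∧
        ∃ v : Fin n → K, LinearIndependent K (fun k : Fin n => (B ^ (k : ℕ)) *ᵥ v)) ∨
      ∃ (κ : Fin n → Fin n) (G G' : Matrix (Fin n) (Fin n) K), G * G' = 1 ∧
        (∀ x, r ≤ Fintype.card {y // κ y = κ x}) ∧
        ∀ x y, κ x = κ y → (G' * B * G) x y = 0) :
    ∃ a : Fin m → Matrix (Fin n) (Fin n) K,
      (∑ σ : Equiv.Perm (Fin m), c σ • (List.ofFn (fun k => a (σ k))).prod) = B := by
  obtain ⟨i, X, Y, z, hz⟩ := MLI.phi_of_hyp hm c hf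
  rcases hB with ⟨hn, htr, v, hv⟩ | ⟨κ, G, G', h1, h2, h3⟩
  · exact MLI.cyclic_hit c i X Y z hz hn B htr v hv
  · refine MLI.hit_of_conj c B G G' h1 (mul_eq_one_comm.1 h1) ?_
    classical
    refine MLI.zero_blocks c i X Y z hz (B := Set.range κ) (fun x => ⟨κ x, x, rfl⟩) ?_ _ ?_
    · rintro ⟨b, x, rfl⟩
      exact le_of_le_of_eq (h2 x)
        (Fintype.card_congr (Equiv.subtypeEquivRight fun y => (Subtype.mk_eq_mk).symm))
    · intro x y hxy
      exact h3 x y (congrArg Subtype.val hxy)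

end Pool.Agent.Results.MP_05d08f_al.CyclicSmallDegree
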