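import Mathlib
import Pool.Agent.Work.MP_05d08f_al.Final

set_option autoImplicit false

/-!
# Multilinear polynomials that are not central on `M_2(K)`: all trace zero matrices of even size
-/

namespace Pool.Agent.Results.MP_05d08f_al.EvenSize

open Matrix

/-- `K` an infinite field, `f = ∑ c σ x_{σ 0} ⋯ x_{σ (m-1)}` a multilinear polynomial over `K`. If
`f` has a nonscalar value on `M_2(K)` and `n` is even, or if `m > 0` and `f` is not an identity of
the upper triangular `2 × 2` matrices (`n` arbitrary), then every trace zero matrix in `M_n(K)`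
that is zero or not scalar is a value of `f`; in particular all of `sl_n(K)` if `n ≠ 0` in `K`. -/
theorem result (K : Type) [Field K] [Infinite K] (m : ℕ) (c : Equiv.Perm (Fin m) → K) (n : ℕ)
    (hf : (Even n ∧ ∃ b : Fin m → Matrix (Fin 2) (Fin 2) K, ∀ t : K,
        (∑ σ : Equiv.Perm (Fin m), c σ • (List.ofFn (fun k => b (σ k))).prod) ≠
          Matrix.scalar (Fin 2) t) ∨
      (0 < m ∧ ∃ b : Fin m → Matrix (Fin 2) (Fin 2) K, (∀ j, b j 1 0 = 0) ∧
        (∑ σ : Equiv.Perm (Fin m), c σ • (List.ofFn (fun k => b (σ k))).prod) ≠ 0))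
    (B : Matrix (Fin n) (Fin n) K) (hB : B.trace = 0)
    (hB' : (n : K) ≠ 0 ∨ B = 0 ∨ ∀ t : K, B ≠ Matrix.scalar (Fin n) t) :
    ∃ a : Fin m → Matrix (Fin n) (Fin n) K,
      (∑ σ : Equiv.Perm (Fin m), c σ • (List.ofFn (fun k => a (σ k))).prod) = B := by
  have hB2 : B = 0 ∨ ∀ t : K, B ≠ Matrix.scalar (Fin n) t := by
    rcases hB' with h | h
    · by_cases h1 : ∀ t : K, B ≠ Matrix.scalar (Fin n) t
      · exact Or.inr h1
      · left
        push Not at h1
        obtain ⟨t, ht⟩ := h1
        rw [ht] at hB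
        have h2 : (n : K) * t = 0 := by
          simpa [Matrix.trace, Matrix.scalar_apply] using hB
        rcases mul_eq_zero.1 h2 with h3 | h3
        · exact absurd h3 h
        · rw [ht, h3]
          ext x y
          simp [Matrix.scalar_apply, Matrix.diagonal_apply]
    · exact h
  rcases hf with ⟨hn, b, hb⟩ | ⟨hm, b, hb, hb'⟩
  · exact MLI.even_size c b hb hn B hB hB2
  · exact MLI.ut_two hm c b hb hb' B hB hB2

end Pool.Agent.Results.MP_05d08f_al.EvenSize
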