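import Mathlib
import Pool.Agent.Work.MP_05d08f_al.AX.Final

set_option autoImplicit false

/-!
# The Lvov-Kaplansky conjecture for large matrices

For every degree `m` and all `n ≥ N(m)`: the image on `M_n(K)` of every nonzero multilinear polynomial
of degree `m` contains all trace zero matrices (`K` infinite of characteristic not dividing `n`), and it is
all of `M_n(K)` if some value has nonzero trace.
-/

namespace Pool.Agent.Results.MP_05d08f_al.LargeMatrices

open Matrix

/-- For every `m > 0` there is `N` such that for every `n ≥ N` there is `q₀` such that for every field `K`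
which is infinite or has at least `q₀` elements, every nonzero multilinear polynomial
`f = ∑ c σ x_{σ 0} ⋯ x_{σ (m-1)}` over `K` and every `B ∈ M_n(K)`: the matrix `B` is a value of `f` if

* either `f` has a value of nonzero trace on `M_n(K)`,
* or `B` has trace zero, and `n ≠ 0` in `K` or `B = 0` or `B` is not scalar. -/
theorem result (m : ℕ) (hm : 0 < m) : ∃ N : ℕ, ∀ n : ℕ, N ≤ n → ∃ q₀ : ℕ, ∀ (K : Type) [Field K],
    (Infinite K ∨ q₀ ≤ Nat.card K) → ∀ c : Equiv.Perm (Fin m) → K, c ≠ 0 →
    ∀ B : Matrix (Fin n) (Fin n) K,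
      ((∃ a : Fin m → Matrix (Fin n) (Fin n) K,
          (∑ σ : Equiv.Perm (Fin m), c σ • (List.ofFn (fun k => a (σ k))).prod).trace ≠ 0) ∨
        (B.trace = 0 ∧
          ((n : K) ≠ 0 ∨ B = 0 ∨ ∀ t : K, B ≠ t • (1 : Matrix (Fin n) (Fin n) K)))) →
      ∃ a : Fin m → Matrix (Fin n) (Fin n) K,
        (∑ σ : Equiv.Perm (Fin m), c σ • (List.ofFn (fun k => a (σ k))).prod) = B :=
  ALK.main_final m hm

end Pool.Agent.Results.MP_05d08f_al.LargeMatrices
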