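import Mathlib
import Pool.Agent.Work.MP_05d08f_al.RS.Main

set_option autoImplicit false

/-!
# Reversal-symmetric multilinear polynomials and multilinear Lie polynomials: all matrix sizes
-/

namespace Pool.Agent.Results.MP_05d08f_al.LiePolynomials

open Matrix

/-- `K` an infinite field.

(1) Let `f = ∑ c σ x_{σ 0} ⋯ x_{σ (m-1)}` be a multilinear polynomial whose coefficients are unchanged, or all
change their sign, if every word is read backwards.  If `f` has a nonscalar value on `M_2(K)`, then for every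
`n` every trace zero matrix `B` in `M_n(K)` (with `n ≠ 0` in `K`, or `B = 0`, or `B` not scalar) is a value of `f`.

(2) The same for every multilinear Lie polynomial
`f = ∑ c σ [x_{σ 0}, [x_{σ 1}, [⋯, [x_{σ (m-1)}, x_{σ m}]]]]`. -/
theorem result (K : Type) [Field K] [Infinite K] :
    (∀ (m : ℕ) (c : Equiv.Perm (Fin m) → K),
      ((∀ σ τ : Equiv.Perm (Fin m), (∀ k, τ k = σ k.rev) → c τ = c σ) ∨
        ∀ σ τ : Equiv.Perm (Fin m), (∀ k, τ k = σ k.rev) → c τ = - c σ) →
      (∃ b : Fin m → Matrix (Fin 2) (Fin 2) K, ∀ t : K,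
        (∑ σ : Equiv.Perm (Fin m), c σ • (List.ofFn (fun k => b (σ k))).prod) ≠
          Matrix.scalar (Fin 2) t) →
      ∀ (n : ℕ) (B : Matrix (Fin n) (Fin n) K), B.trace = 0 →
        ((n : K) ≠ 0 ∨ B = 0 ∨ ∀ t : K, B ≠ Matrix.scalar (Fin n) t) →
        ∃ a : Fin m → Matrix (Fin n) (Fin n) K,
          (∑ σ : Equiv.Perm (Fin m), c σ • (List.ofFn (fun k => a (σ k))).prod) = B) ∧
    (∀ (m : ℕ) (c : Equiv.Perm (Fin (m + 1)) → K),
      (∃ b : Fin (m + 1) → Matrix (Fin 2) (Fin 2) K, ∀ t : K,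
        (∑ σ : Equiv.Perm (Fin (m + 1)), c σ •
          (List.ofFn (fun k : Fin m => b (σ k.castSucc))).foldr (fun x y => x * y - y * x)
            (b (σ (Fin.last m)))) ≠ Matrix.scalar (Fin 2) t) →
      ∀ (n : ℕ) (B : Matrix (Fin n) (Fin n) K), B.trace = 0 →
        ((n : K) ≠ 0 ∨ B = 0 ∨ ∀ t : K, B ≠ Matrix.scalar (Fin n) t) →
        ∃ a : Fin (m + 1) → Matrix (Fin n) (Fin n) K,
          (∑ σ : Equiv.Perm (Fin (m + 1)), c σ •
            (List.ofFn (fun k : Fin m => a (σ k.castSucc))).foldr (fun x y => x * y - y * x)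
              (a (σ (Fin.last m)))) = B) := by
  refine ⟨fun m c hc hb n B hB hB' => ?_, fun m c hb n B hB hB' => ?_⟩
  · obtain ⟨b, hb⟩ := hb
    exact MLI.rs_plain c hc b hb B hB hB'
  · obtain ⟨b, hb⟩ := hb
    exact MLI.lie_plain c b hb B hB hB'

end Pool.Agent.Results.MP_05d08f_al.LiePolynomials
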